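import Pool.Agent.H17.AH.TargetsC
import Pool.Agent.H27.LV.Gen

/-!
# ALH: the algebraic theorem, reduction to the plane
-/

set_option autoImplicit false

namespace Pool.Agent.H11.AH

open MvPolynomial SC Pool.Agent.H27.LV Pool.Agent.H17.VG Pool.Agent.H17.BO Pool.Agent.H17.AH

variable {k L : Type} [Field k] [Field L] [Algebra k L] {n : ℕ}

/-- the restriction to the plane -/
private noncomputable def phi (P : Fin (n + 1) → Fin 3 → k) (j : Fin (n + 1)) :
    MvPolynomial (Fin 3) k := ∑ t, C (P j t) * X t

private lemma phi_homog (P : Fin (n + 1) → Fin 3 → k) (j : Fin (n + 1)) :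
    (phi P j).IsHomogeneous 1 := by
  unfold phi
  refine IsHomogeneous.sum _ _ _ fun t _ => ?_
  have := (isHomogeneous_C (Fin 3) (P j t)).mul (isHomogeneous_X k t)
  simpa using this

private lemma aeval_phi_homog (P : Fin (n + 1) → Fin 3 → k) {d : ℕ}
    {G : MvPolynomial (Fin (n + 1)) k} (hG : G.IsHomogeneous d) :
    (aeval (phi P) G).IsHomogeneous d := by
  have := hG.aeval (phi P) (phi_homog P)
  simpa using this

private lemma eval_aeval_phi (P : Fin (n + 1) → Fin 3 → k) (z : Fin 3 → k)
    (G : MvPolynomial (Fin (n + 1)) k) :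
    eval z (aeval (phi P) G) = eval (fun j => ∑ t, P j t * z t) G := by
  have h : ((aeval z : MvPolynomial (Fin 3) k →ₐ[k] k).comp (aeval (phi P))) =
      aeval (fun j => ∑ t, P j t * z t) := by
    apply algHom_ext
    intro j
    rw [AlgHom.comp_apply, aeval_X, aeval_X, phi, map_sum]
    refine Finset.sum_congr rfl fun t _ => ?_
    rw [map_mul, aeval_X, aeval_C]
    rfl
  have h2 := DFunLike.congr_fun h G
  rw [AlgHom.comp_apply] at h2
  rw [← coe_aeval_eq_eval, ← coe_aeval_eq_eval]
  exact h2

/-- the restriction over `L` -/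
private lemma aeval_up (P : Fin (n + 1) → Fin 3 → k) (G : MvPolynomial (Fin (n + 1)) k) :
    aeval (fun j => ∑ t, C (algebraMap k L (P j t)) * X t : Fin (n + 1) →
      MvPolynomial (Fin 3) L) (up L G) = up L (aeval (phi P) G) := by
  unfold up
  induction G using MvPolynomial.induction_on with
  | C a => simp only [map_C, aeval_C, algebraMap_eq]
  | add p q hp hq => simp only [map_add, hp, hq]
  | mul_X p j hp =>
    rw [map_mul, map_mul, hp, map_mul, map_mul, map_X, aeval_X, aeval_X, phi, map_sum]
    congr 1
    refine Finset.sum_congr rfl fun t _ => ?_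
    rw [map_mul, map_C, map_X]

private lemma eval_up (P : Fin (n + 1) → Fin 3 → k) (x : Fin (n + 1) → L)
    (s : Fin 3 → Fin (n + 1)) (hx : ∀ j, x j = ∑ t, algebraMap k L (P j t) * x (s t))
    (G : MvPolynomial (Fin (n + 1)) k) :
    eval (x ∘ s) (up L (aeval (phi P) G)) = eval x (up L G) := by
  unfold up
  induction G using MvPolynomial.induction_on with
  | C a => simp only [map_C, aeval_C, algebraMap_eq, eval_C]
  | add p q hp hq => simp only [map_add, hp, hq]
  | mul_X p j hp =>
    rw [map_mul, map_mul, map_mul, hp, map_mul, map_mul, map_X, aeval_X, eval_X, phi, map_sum,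
      map_sum, hx j]
    congr 1
    refine Finset.sum_congr rfl fun t _ => ?_
    rw [map_mul, map_C, map_X, map_mul, eval_C, eval_X]
    rfl

private lemma up_homog {d : ℕ} {m : ℕ} {G : MvPolynomial (Fin (m + 1)) k}
    (hG : G.IsHomogeneous d) : (up L G).IsHomogeneous d := hG.map _

private lemma line_up (P : Fin (n + 1) → Fin 3 → k) (x : Fin (n + 1) → L)
    (s : Fin 3 → Fin (n + 1)) (hx : ∀ j, x j = ∑ t, algebraMap k L (P j t) * x (s t))
    (h : OnLine k (x ∘ s)) : OnLine k x := by
  obtain ⟨u, v, a, b, h⟩ := h
  refine ⟨fun j => ∑ t, P j t * u t, fun j => ∑ t, P j t * v t, a, b, fun j => ?_⟩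
  rw [hx j, map_sum, map_sum, Finset.mul_sum, Finset.mul_sum, ← Finset.sum_add_distrib]
  refine Finset.sum_congr rfl fun t _ => ?_
  have := h t
  rw [Function.comp_apply] at this
  rw [this, map_mul, map_mul]
  ring

private lemma conic_up (P : Fin (n + 1) → Fin 3 → k) (x : Fin (n + 1) → L)
    (s : Fin 3 → Fin (n + 1)) (hx : ∀ j, x j = ∑ t, algebraMap k L (P j t) * x (s t))
    (hP : ∀ t u, P (s t) u = if t = u then 1 else 0)
    (h : OnConic k (x ∘ s)) : OnConic k x := by
  obtain ⟨a, b, c, hli, l, p, q, h⟩ := h
  let T : (Fin 3 → k) →ₗ[k] (Fin (n + 1) → k) :=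
    LinearMap.pi fun j => ∑ t, P j t • LinearMap.proj t
  have hT : ∀ z j, T z j = ∑ t, P j t * z t := by
    intro z j
    simp only [T, LinearMap.pi_apply, LinearMap.sum_apply, LinearMap.smul_apply,
      LinearMap.proj_apply, smul_eq_mul]
  have hker : LinearMap.ker T = ⊥ := by
    rw [LinearMap.ker_eq_bot']
    intro z hz
    funext t
    have h1 := congrFun hz (s t)
    rw [hT] at h1
    simp only [hP, ite_mul, one_mul, zero_mul, Finset.sum_ite_eq, Finset.mem_univ, if_true] at h1
    exact h1
  refine ⟨T a, T b, T c, ?_, l, p, q, fun j => ?_⟩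
  · have h2 := hli.map' T hker
    have h3 : T ∘ ![a, b, c] = ![T a, T b, T c] := by
      funext i
      fin_cases i <;> rfl
    rw [h3] at h2
    exact h2
  · rw [hT, hT, hT, hx j, map_sum, map_sum, map_sum, Finset.mul_sum, Finset.mul_sum,
      Finset.mul_sum, ← Finset.sum_add_distrib, ← Finset.sum_add_distrib, Finset.mul_sum]
    refine Finset.sum_congr rfl fun t _ => ?_
    have := h t
    rw [Function.comp_apply] at this
    rw [this, map_mul, map_mul, map_mul]
    ring

private lemma dir_up {m : ℕ} (w : Fin (m + 1) → k) (G : MvPolynomial (Fin (m + 1)) k) :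
    dir (fun a => algebraMap k L (w a)) (up L G) = up L (dir w G) := by
  unfold dir up
  rw [map_sum]
  refine Finset.sum_congr rfl fun i _ => ?_
  rw [map_mul, map_C, pderiv_map]

private lemma dir_homog {m d : ℕ} (w : Fin (m + 1) → k) {G : MvPolynomial (Fin (m + 1)) k}
    (hG : G.IsHomogeneous (d + 1)) : (dir w G).IsHomogeneous d := by
  unfold dir
  refine IsHomogeneous.sum _ _ _ fun i _ => ?_
  have h := (isHomogeneous_C (Fin (m + 1)) (w i)).mul (hG.pderiv (i := i))
  simpa using h

private lemma linear_form {m : ℕ} {H : MvPolynomial (Fin (m + 1)) k} (hH : H.IsHomogeneous 1) :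
    ∃ h : Fin (m + 1) → k, H = ∑ a, C (h a) * X a := by
  have h1 : ∀ a, ∃ c : k, pderiv a H = C c := by
    intro a
    have h2 : (pderiv a H).IsHomogeneous 0 := by simpa using hH.pderiv (i := a)
    have h3 : (pderiv a H).totalDegree = 0 := Nat.le_zero.mp h2.totalDegree_le
    exact ⟨_, (totalDegree_eq_zero_iff_eq_C).mp h3⟩
  choose h hh using h1
  refine ⟨h, ?_⟩
  have h4 := hH.sum_X_mul_pderiv
  rw [one_nsmul] at h4
  rw [← h4]
  refine Finset.sum_congr rfl fun a _ => ?_
  rw [hh a, mul_comm]

private lemma eval_linear {m : ℕ} (h w : Fin (m + 1) → k) :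
    eval w (∑ a, C (h a) * X a : MvPolynomial (Fin (m + 1)) k) = ∑ a, h a * w a := by
  rw [map_sum]
  refine Finset.sum_congr rfl fun a _ => ?_
  rw [map_mul, eval_C, eval_X]

private lemma up_linear {m : ℕ} (h : Fin (m + 1) → k) :
    up L (∑ a, C (h a) * X a : MvPolynomial (Fin (m + 1)) k) =
      ∑ a, C (algebraMap k L (h a)) * X a := by
  unfold up
  rw [map_sum]
  refine Finset.sum_congr rfl fun a _ => ?_
  rw [map_mul, map_C, map_X]

/-- the vectors of the hyperplane -/
private def hyp {m : ℕ} (h v : Fin (m + 1) → k) (a c : Fin (m + 1)) : k :=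
  (if c = a then 1 else 0) - h a * v c

private lemma sum_hyp {m : ℕ} (h v : Fin (m + 1) → k) (u : Fin (m + 1) → k) (a : Fin (m + 1)) :
    ∑ c, u c * hyp h v a c = u a - h a * ∑ c, u c * v c := by
  unfold hyp
  simp only [mul_sub, mul_ite, mul_one, mul_zero, Finset.sum_sub_distrib, Finset.sum_ite_eq',
    Finset.mem_univ, if_true, Finset.mul_sum]
  congr 1
  refine Finset.sum_congr rfl fun c _ => ?_
  ring

private lemma eval_dir {m : ℕ} (w z : Fin (m + 1) → k) (G : MvPolynomial (Fin (m + 1)) k) :
    eval z (dir w G) = ∑ c, w c * eval z (pderiv c G) := by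
  unfold dir
  rw [map_sum]
  refine Finset.sum_congr rfl fun c _ => ?_
  rw [map_mul, eval_C]

/-- ALH -/
theorem pf_ALH (hPLN : T_PLN) (hRES : T_RES) (hTER : T_TERH) : T_ALH := by
  intro k L _ _ _ _ _ n e he F H hF hH htr x y ν hF2 hxF hxH κ hκ hne
  obtain ⟨e', rfl⟩ : ∃ e', e = e' + 1 := ⟨e - 1, by omega⟩
  have : Infinite k := IsAlgClosed.instInfinite
  rcases hPLN k L n (e' + 1) x y κ hκ hne with h | ⟨s, P, hinj, hP, ⟨Q0, hQ0⟩, hxP, hfn⟩
  · exact Or.inl h
  obtain ⟨y', hy'⟩ := hRES k L n (e' + 1) y s P hinj hP hfn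
  -- the linear form
  obtain ⟨h, rfl⟩ := linear_form hH
  have hx0 : ∑ a, algebraMap k L (h a) * x a ≠ 0 := by
    rw [up_linear, eval_linear] at hxH
    exact hxH
  obtain ⟨a0, ha0⟩ : ∃ a, h a ≠ 0 := by
    by_contra hcon
    push Not at hcon
    exact hx0 (Finset.sum_eq_zero fun a _ => by rw [hcon a, map_zero, zero_mul])
  let v : Fin (n + 1) → k := fun a => if a = a0 then (h a0)⁻¹ else 0
  have hv : ∑ a, h a * v a = 1 := by
    simp only [v, mul_ite, mul_zero, Finset.sum_ite_eq', Finset.mem_univ, if_true]
    exact mul_inv_cancel₀ ha0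
  let w : Fin (n + 1) → Fin (n + 1) → k := fun a => hyp h v a
  have hwH : ∀ a, ∑ c, h c * w a c = 0 := by
    intro a
    simp only [w]
    rw [sum_hyp, hv, mul_one, sub_self]
  -- the value of the functionals on multiples of forms over `k`
  have hphi : ∀ t, phi P (s t) = X t := by
    intro t
    simp only [phi, hP]
    rw [Finset.sum_eq_single t (by
      intro u _ hu
      rw [if_neg (Ne.symm hu), map_zero, zero_mul]) (by simp)]
    rw [if_pos rfl, map_one, one_mul]
  have hval : ∀ (b : Fin 2) (t : Fin 3) (G : MvPolynomial (Fin (n + 1)) k),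
      G.IsHomogeneous (e' + 1) →
      fnl (y' b) (X t * up L (aeval (phi P) G)) = fnl (y b) (X (s t) * up L G) := by
    intro b t G hG
    have h1 : (X (s t) * G : MvPolynomial (Fin (n + 1)) k).IsHomogeneous (e' + 1 + 1) := by
      have := (isHomogeneous_X k (s t)).mul hG
      rwa [add_comm 1 (e' + 1)] at this
    have h2 := hy' b (up L (X (s t) * G)) (up_homog h1)
    rw [aeval_up, map_mul, aeval_X, hphi t] at h2
    have h3 : ∀ {m : ℕ} (i : Fin (m + 1)) (G' : MvPolynomial (Fin (m + 1)) k),
        up L (X i * G') = X i * up L G' := by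
      intro m i G'
      unfold up
      rw [map_mul, map_X]
    rw [h3, h3] at h2
    exact h2.symm
  have hFd : ∀ a, (dir (w a) F).IsHomogeneous (e' + 1) := fun a => dir_homog _ hF
  -- the gradient
  have hgr : ∀ a, eval (x ∘ s) (up L (aeval (phi P) (dir (w a) F))) =
      eval x (pderiv a (up L F)) -
        algebraMap k L (h a) * ∑ c, eval x (pderiv c (up L F)) * algebraMap k L (v c) := by
    intro a
    rw [eval_up P x s hxP, ← dir_up, eval_dir]
    have h1 := sum_hyp (fun c => algebraMap k L (h c)) (fun c => algebraMap k L (v c))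
      (fun c => eval x (pderiv c (up L F))) a
    rw [← h1]
    refine Finset.sum_congr rfl fun c _ => ?_
    simp only [w, hyp]
    rw [map_sub, map_mul, mul_comm]
    congr 2
    split_ifs <;> simp
  have hnu : ∀ b a, ∑ c, ν b c * algebraMap k L (w a c) =
      ν b a - algebraMap k L (h a) * ∑ c, ν b c * algebraMap k L (v c) := by
    intro b a
    have h1 := sum_hyp (fun c => algebraMap k L (h c)) (fun c => algebraMap k L (v c)) (ν b) a
    rw [← h1]
    refine Finset.sum_congr rfl fun c _ => ?_
    simp only [w, hyp]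
    rw [map_sub, map_mul]
    congr 2
    split_ifs <;> simp
  have heul : ∑ a, eval x (pderiv a (up L F)) * x a = 0 := by
    have h2 := congrArg (eval x) (up_homog (L := L) hF).sum_X_mul_pderiv
    rw [map_sum] at h2
    simp only [map_mul, eval_X] at h2
    rw [map_nsmul, hxF, smul_zero] at h2
    rw [← h2]
    exact Finset.sum_congr rfl fun a _ => mul_comm _ _
  have key := hTER k L e' (n + 1) (by omega) (fun a => aeval (phi P) (dir (w a) F))
    (aeval (phi P) F) (fun a => aeval_phi_homog P (hFd a)) (aeval_phi_homog P hF) (by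
      intro z hz hzf
      rw [eval_aeval_phi] at hzf
      obtain ⟨u, hu, hne'⟩ := htr (fun j => ∑ t, P j t * z t) (by
        intro h0
        apply hz
        funext t
        have h1 := congrFun h0 (s t)
        simp only [hP, ite_mul, one_mul, zero_mul, Finset.sum_ite_eq, Finset.mem_univ,
          if_true] at h1
        exact h1) hzf
      by_contra hcon
      push Not at hcon
      apply hne'
      rw [eval_linear] at hu
      rw [eval_dir]
      have h1 : ∀ a, eval (fun j => ∑ t, P j t * z t) (dir (w a) F) = 0 := by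
        intro a
        have := hcon a
        rw [eval_aeval_phi] at this
        exact this
      have h2 : ∀ a, eval (fun j => ∑ t, P j t * z t) (pderiv a F) -
          h a * ∑ c, eval (fun j => ∑ t, P j t * z t) (pderiv c F) * v c = 0 := by
        intro a
        rw [← sum_hyp h v (fun c => eval (fun j => ∑ t, P j t * z t) (pderiv c F)) a, ← h1 a,
          eval_dir]
        refine Finset.sum_congr rfl fun c _ => ?_
        rw [mul_comm]
      have h3 : ∑ a, u a * eval (fun j => ∑ t, P j t * z t) (pderiv a F) =
          ∑ a, (u a * (eval (fun j => ∑ t, P j t * z t) (pderiv a F) -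
            h a * ∑ c, eval (fun j => ∑ t, P j t * z t) (pderiv c F) * v c)) +
          (∑ a, h a * u a) * ∑ c, eval (fun j => ∑ t, P j t * z t) (pderiv c F) * v c := by
        rw [Finset.sum_mul, ← Finset.sum_add_distrib]
        refine Finset.sum_congr rfl fun a _ => ?_
        ring
      rw [h3, hu, zero_mul, add_zero]
      exact Finset.sum_eq_zero fun a _ => by rw [h2 a, mul_zero])
    (x ∘ s) y' (fun b a => ∑ c, ν b c * algebraMap k L (w a c)) (by
      rw [Fintype.linearIndependent_iff]
      intro c hc
      have hind := Fintype.linearIndependent_iff.mp hF2.ind c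
      have hc' : ∀ a, c 0 * (ν 0 a - algebraMap k L (h a) * ∑ c, ν 0 c * algebraMap k L (v c)) +
          c 1 * (ν 1 a - algebraMap k L (h a) * ∑ c, ν 1 c * algebraMap k L (v c)) +
          c 2 * (eval x (pderiv a (up L F)) -
        algebraMap k L (h a) * ∑ c, eval x (pderiv c (up L F)) * algebraMap k L (v c)) = 0 := by
        intro a
        have := congrFun hc a
        simp only [Fin.sum_univ_three, Matrix.cons_val_zero, Matrix.cons_val_one,
          Matrix.cons_val, Pi.add_apply, Pi.smul_apply, smul_eq_mul, Pi.zero_apply, hnu, hgr]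
          at this
        exact this
      set M : L := c 0 * (∑ c, ν 0 c * algebraMap k L (v c)) +
        c 1 * (∑ c, ν 1 c * algebraMap k L (v c)) +
        c 2 * ∑ c, eval x (pderiv c (up L F)) * algebraMap k L (v c) with hM
      have hc2 : ∀ a, c 0 * ν 0 a + c 1 * ν 1 a + c 2 * eval x (pderiv a (up L F)) =
          M * algebraMap k L (h a) := by
        intro a
        rw [hM]
        linear_combination hc' a
      have hM0 : M = 0 := by
        have h1 : M * ∑ a, algebraMap k L (h a) * x a =
            c 0 * (∑ a, ν 0 a * x a) + c 1 * (∑ a, ν 1 a * x a) +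
              c 2 * ∑ a, eval x (pderiv a (up L F)) * x a := by
          rw [Finset.mul_sum, Finset.mul_sum, Finset.mul_sum, Finset.mul_sum,
            ← Finset.sum_add_distrib, ← Finset.sum_add_distrib]
          refine Finset.sum_congr rfl fun a _ => ?_
          linear_combination (-x a) * hc2 a
        rw [hF2.orth 0, hF2.orth 1, heul, mul_zero, mul_zero, mul_zero, add_zero, add_zero] at h1
        exact (mul_eq_zero.mp h1).resolve_right hx0
      apply hind
      funext a
      have := hc2 a
      rw [hM0, zero_mul] at this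
      simp only [Fin.sum_univ_three, Matrix.cons_val_zero, Matrix.cons_val_one,
          Matrix.cons_val, Pi.add_apply, Pi.smul_apply, smul_eq_mul, Pi.zero_apply]
      exact this) (by
      intro b j a
      rw [hval b j _ (hFd a)]
      have h1 := hF2.grad b (s j) (fun c => algebraMap k L (w a c)) (by
        rw [up_linear, eval_linear]
        have h2 := congrArg (algebraMap k L) (hwH a)
        rw [map_sum, map_zero] at h2
        rw [← h2]
        refine Finset.sum_congr rfl fun c _ => ?_
        rw [map_mul])
      rw [dir_up] at h1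
      exact h1) (by
      intro b
      have h1 := hy' b (up L F) (up_homog hF)
      rw [aeval_up, hF2.mul b] at h1
      exact h1.symm) (by
      rw [eval_up P x s hxP]
      exact hxF) κ (by
      intro Q'
      obtain ⟨r, hr⟩ := hκ (fun M => coeff (fs M.1) (rename s (frm Q'))) s
      refine ⟨r, ?_⟩
      rw [← hr, frm_coeff ((frm_homog Q').rename_isHomogeneous)]
      have h1 : aeval (phi P) (rename s (frm Q')) = frm Q' := by
        rw [aeval_rename]
        have : (phi P ∘ s) = X := by
          funext t
          exact hphi t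
        rw [this, aeval_X_left_apply]
      have h2 : ∀ b t, fnl (y' b) (X t * up L (frm Q')) =
          fnl (y b) (X (s t) * up L (rename s (frm Q'))) := by
        intro b t
        rw [← hval b t _ ((frm_homog Q').rename_isHomogeneous), h1]
      unfold det3
      simp only [id, h2, Function.comp_apply]) (by
      have hh := aeval_phi_homog P (frm_homog Q0)
      refine ⟨fun M => coeff (fs M.1) (aeval (phi P) (frm Q0)), ?_⟩
      rw [frm_coeff hh]
      have h2 : ∀ b t, fnl (y' b) (X t * up L (aeval (phi P) (frm Q0))) =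
          fnl (y b) (X (s t) * up L (frm Q0)) := fun b t => hval b t _ (frm_homog Q0)
      have h3 : det3 (x ∘ s) y' (up L (aeval (phi P) (frm Q0))) id =
          det3 x y (up L (frm Q0)) s := by
        unfold det3
        simp only [id, h2, Function.comp_apply]
      rw [h3]
      exact hQ0)
  rcases key with h | h
  · exact Or.inl (line_up P x s hxP h)
  · exact Or.inr (conic_up P x s hxP hP h)

end Pool.Agent.H11.AH
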